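import Mathlib
import Pool.Agent.TH115.GD.Defs
import Pool.Agent.TH115.ID.Defs
import Pool.Agent.W309.TD.Stmt
import Pool.Agent.X243.CD.Three

/-!
# A complete two-descent over `L(t)` for 100% of the elliptic curves with a point of order two

Let `R` be an integrally closed domain which is finitely generated as a ring and not a field, with
`2 ≠ 0` in `R`, and `k` its field of fractions. (Each infinite finitely generated field of
characteristic different from 2 is the field of fractions of such an `R`: the rings of integers of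
number fields, `F_q[s]` or the coordinate ring of a smooth affine curve over a finite field, `ℤ[s]`,
`ℤ[s_1, ..., s_r]` and so on.) Every elliptic curve over `k(t)` with a rational point of order two is

`E : y² = x (x² + a x + b)`

with polynomials `a`, `b` in the variable `t` over `R`. Put `d = a² - 4 b`. For a nonzero constant `c` let
`E_c : c y² = x (x² + a x + b)` be the quadratic twist.

Call `(a, b)` good if `b` and `d` are irreducible over `k`, of degree `N`, separable, and for EVERY
extension field `L` of `k` (for example `L = k`) the following holds.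

(A) If the elements of `L` which are separable algebraic over `k` lie in a normal extension `M` of `k` in
a separable closure `L'` of `L`, such that neither `b` nor `d` splits into linear factors over `M`, or

(B) if for each element of `L` which is separable algebraic over `k` the Galois group of its minimal
polynomial over `k` is solvable,

then for EVERY nonzero `c` in `L` the curve `E_c` over `K = L(t)` satisfies

(i) `Ш(E_c / K)[2^∞] = 0`, in particular `T_2 Ш(E_c / K) = 0`; here `Ш` may even be taken to be the group of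
classes which are trivial at the places different from `t = ∞`;

(ii) `E_c(K) = 2 E_c(K) + E_c(K)[2]`.

Theorem. Let `2 m ≤ N`, `N ≥ 5`.

(1) (Congruences.) For every `η > 0` there is an ideal `M` of `R` with finite quotient and a set of
residue classes modulo `M` of pairs `(a, b)` over `R`, `a` of degree at most `m`, `b` of degree at most
`N` in `t`, with proportion at least `1 - η` among all the residue classes, such that EVERY pair over `R`
in one of these residue classes is good.

(2) (100%.) Let `B 0`, `B 1`, ... be a sequence of nonempty finite sets of such pairs over `R` which is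
equidistributed modulo each ideal of `R` with finite quotient. Then the proportion of the good pairs
in `B i` tends to `1`.

So the conjecture on the Selmer groups holds at the prime 2 for 100% of the elliptic curves over `k(t)`
with a point of order two, and all their twists by constants, and for all of them the full 2-primary
part of `Ш` is trivial. (There are infinitely many constants up to squares, so already for one pair
these are infinitely many curves, and `L` varies too: `L` may be any finitely generated extension of `k`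
which is linearly disjoint from the splitting fields.)

The proof: a locally trivial class of order two in `H^1(K, E_c[2])` gives, with the two isogenies of
degree two, elements of `K^*/K^{*2}`. Such an element has even valuations away from `b` (or `d`), and it is a
local square at `d` (or `b`); so it is a constant times a square or a constant times a square times `b`
(or `d`), and the constant becomes a square in the residue field of `d` (or `b`). As the Galois groups of
`b` and `d` over `L` contain the alternating group, no constant which is not a square has this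
property. The class hence comes from `E(K)[2]`.
-/

namespace Pool.Agent.Results.MP_1bdb59_nt.CompleteTwoDescent

open Polynomial Pool.Agent.W309 Filter Topology
open scoped Classical

/-- The polynomial over `k` with the coefficients `c`. -/
noncomputable def poly {R : Type} [CommRing R] (k : Type) [Field k] [Algebra R k] {r : ℕ}
    (c : Fin r → R) : k[X] :=
  ∑ j : Fin r, C (algebraMap R k (c j)) * X ^ (j : ℕ)

/-- The curve `c y² = x (x² + a x + b)` over `K = L(t)`, written as `y² = x (x² + c a x + c² b)`, for
polynomials `a`, `b` over the subfield `k` of `L` and `c` in `L`. -/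
noncomputable def twist {k L : Type} [Field k] [Field L] [Algebra k L] (K : Type) [Field K]
    [Algebra L[X] K] (a b : k[X]) (c : L) : WeierstrassCurve K where
  a₁ := 0
  a₂ := algebraMap L[X] K (C c * a.map (algebraMap k L))
  a₃ := 0
  a₄ := algebraMap L[X] K (C (c ^ 2) * b.map (algebraMap k L))
  a₆ := 0

/-- For every twist by a constant of the curve over `L(t)`: the points are twice points plus points of
order two, and the 2-primary part of the group of the classes which are trivial at all the finite
places of `L(t)` is trivial (in particular the Tate module is). -/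
def DescentOver {k : Type} [Field k] (a b : k[X]) (L : Type) [Field L] [Algebra k L] : Prop :=
  ∀ (K : Type) [Field K] [Algebra L[X] K] [IsFractionRing L[X] K] (c : L), c ≠ 0 →
    Sha.PointsComplete (twist K a b c) ∧ Sha.ShaTwoTrivial L[X] (twist K a b c) ∧
      Sha.ShaTateTrivial L[X] (twist K a b c)

/-- The good pairs. -/
structure Good (k : Type) [Field k] (N : ℕ) (a b : k[X]) : Prop where
  irrB : Irreducible b ∧ b.natDegree = N ∧ b.Separable
  irrD : Irreducible (a ^ 2 - 4 * b) ∧ (a ^ 2 - 4 * b).natDegree = N ∧ (a ^ 2 - 4 * b).Separable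
  normal : ∀ (L L' : Type) [Field L] [Field L'] [Algebra L L'] [IsSepClosure L L']
    [Algebra k L] [Algebra k L'] [IsScalarTower k L L'],
      ∀ M : IntermediateField k L', Normal k M →
        (∀ x : L, IsSeparable k x → algebraMap L L' x ∈ M) →
        ¬ (b.map (algebraMap k M)).Splits → ¬ ((a ^ 2 - 4 * b).map (algebraMap k M)).Splits →
        DescentOver a b L
  solv : ∀ (L : Type) [Field L] [Algebra k L],
      (∀ x : L, IsSeparable k x → Group.IsSolvable (minpoly k x).Gal) → DescentOver a b L

/-- The pairs of coefficient vectors of polynomials of degrees at most `m`, `N`. -/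
abbrev Pairs (m N : ℕ) (R : Type) : Type := (Fin (m + 1) → R) × (Fin (N + 1) → R)

/-- The pair `y` over `R` is in the residue class `z`. -/
def InClass {R : Type} [CommRing R] {m N : ℕ} {M : Ideal R} (y : Pairs m N R)
    (z : Pairs m N (R ⧸ M)) : Prop :=
  (∀ j, Ideal.Quotient.mk M (y.1 j) = z.1 j) ∧ (∀ j, Ideal.Quotient.mk M (y.2 j) = z.2 j)

/-- A sequence of finite sets of pairs which is equidistributed modulo each ideal with finite
quotient. -/
def Equidistributed {R : Type} [CommRing R] {m N : ℕ} (B : ℕ → Finset (Pairs m N R)) : Prop :=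
  ∀ M : Ideal R, Finite (R ⧸ M) → ∀ z : Pairs m N (R ⧸ M),
    Tendsto (fun i => (((B i).filter (fun y => InClass y z)).card : ℝ) / ((B i).card : ℝ)) atTop
      (𝓝 (1 / (Nat.card (Pairs m N (R ⧸ M)) : ℝ)))

theorem good_of {R k : Type} [CommRing R] [IsDomain R] [IsIntegrallyClosed R] [IsNoetherianRing R]
    [Field k] [Algebra R k] [IsFractionRing R k] (h2 : (2 : R) ≠ 0)
    {m N B : ℕ} (hmN : 2 * m ≤ N) (hN : 5 ≤ N) {y : Fin (m + 1) ⊕ Fin (N + 1) → R}
    (h : ∀ s : Bool × Fin 3, ∃ p ∈ Pool.Agent.X243.Gen.Zg R B,
      (fun j => Ideal.Quotient.mk p (y j)) ∈ Pool.Agent.X243.Sol.Gev3 m N s (R ⧸ p)) :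
    Good k N (poly k (y ∘ Sum.inl)) (poly k (y ∘ Sum.inr)) := by
  have h2k : (2 : k) ≠ 0 := by
    rw [← map_ofNat (algebraMap R k) 2]
    exact (map_ne_zero_iff _ (IsFractionRing.injective R k)).2 h2
  obtain ⟨h1, h3⟩ := Pool.Agent.X243.Gen.goodG hmN (by omega) h
    (poly k (y ∘ Sum.inl)) (poly k (y ∘ Sum.inr))
    (Pool.Agent.X243.Tate.bF_map (algebraMap R k) (y ∘ Sum.inl)).symm
    (Pool.Agent.X243.Tate.bF_map (algebraMap R k) (y ∘ Sum.inr)).symm
  refine ⟨⟨h1.1.1, h1.1.2, h1.2.1⟩, ⟨h3.1.1, h3.1.2, h3.2.1⟩, ?_, ?_⟩
  · intro L L' _ _ _ _ _ _ _ M hMn hM hb hd K _ _ _ c hc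
    exact Pool.Agent.X243.CD.cd_ext h2k hN h1 h3 M hMn hM hb hd K c hc (twist K _ _ c) rfl
  · intro L _ _ hM K _ _ _ c hc
    have i1 : IsSepClosure L (Sha.Sep L) := inferInstanceAs (IsSepClosure L (SeparableClosure L))
    have i2 : IsSepClosed (Sha.Sep L) := inferInstanceAs (IsSepClosed (SeparableClosure L))
    exact Pool.Agent.X243.CD.cd_ext (L' := Sha.Sep L) h2k hN h1 h3
      (Pool.Agent.X243.Gen.solvM k (Sha.Sep L)) (Pool.Agent.X243.Gen.solvM_normal (Sha.Sep L))
      (fun x hx => Pool.Agent.X243.Gen.mem_solvM hx (hM x hx))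
      (Pool.Agent.X243.Gen.solvM_not_splits (Sha.Sep L) h1.2.1 (by rw [h1.1.2]; exact hN) h1.2.2)
      (Pool.Agent.X243.Gen.solvM_not_splits (Sha.Sep L) h3.2.1 (by rw [h3.1.2]; exact hN) h3.2.2)
      K c hc (twist K _ _ c) rfl

/-- The vector of all the coefficients. -/
def toVec {R : Type} {m N : ℕ} (z : Pairs m N R) : Fin (m + 1) ⊕ Fin (N + 1) → R :=
  Sum.elim z.1 z.2

theorem toVec_inj {R : Type} {m N : ℕ} : Function.Injective (toVec (R := R) (m := m) (N := N)) := by
  rintro ⟨a, b⟩ ⟨a', b'⟩ h
  exact Prod.ext (funext fun j => congrFun h (Sum.inl j)) (funext fun j => congrFun h (Sum.inr j))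

theorem toVec_surj {R : Type} {m N : ℕ} (y : Fin (m + 1) ⊕ Fin (N + 1) → R) :
    ∃ z : Pairs m N R, toVec z = y := ⟨(y ∘ Sum.inl, y ∘ Sum.inr), Sum.elim_comp_inl_inr y⟩

theorem inClass_iff {R : Type} [CommRing R] {m N : ℕ} {M : Ideal R} (y : Pairs m N R)
    (z : Pairs m N (R ⧸ M)) :
    InClass y z ↔ ∀ j, Ideal.Quotient.mk M (toVec y j) = toVec z j := by
  constructor
  · rintro ⟨h1, h2⟩ (j | j)
    · exact h1 j
    · exact h2 j
  · intro h
    exact ⟨fun j => h (Sum.inl j), fun j => h (Sum.inr j)⟩

theorem result :
    ∀ (R k : Type) [CommRing R] [IsDomain R] [IsIntegrallyClosed R] [Algebra.FiniteType ℤ R]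
      [Field k] [Algebra R k] [IsFractionRing R k], ¬ IsField R → (2 : R) ≠ 0 →
      ∀ (m N : ℕ), 2 * m ≤ N → 5 ≤ N →
        (∀ η : ℝ, 0 < η → ∃ M : Ideal R, Finite (R ⧸ M) ∧
          (1 - η) * (Nat.card (Pairs m N (R ⧸ M)) : ℝ) ≤
          (({z : Pairs m N (R ⧸ M) | ∀ y : Pairs m N R, InClass y z →
                Good k N (poly k y.1) (poly k y.2)}.ncard : ℕ) : ℝ)) ∧
        (∀ B : ℕ → Finset (Pairs m N R), (∀ i, (B i).Nonempty) → Equidistributed B →
          Tendsto (fun i => (((B i).filter (fun y => Good k N (poly k y.1) (poly k y.2))).card : ℝ) /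
            ((B i).card : ℝ)) atTop (𝓝 1)) := by
  intro R k _ _ _ _ _ _ _ hR h2 m N hmN hN
  have : IsNoetherianRing R := Algebra.FiniteType.isNoetherianRing ℤ R
  have hcard : ∀ M : Ideal R, (Nat.card (Pairs m N (R ⧸ M)) : ℝ) =
      (Nat.card (R ⧸ M) : ℝ) ^ (Fintype.card (Fin (m + 1) ⊕ Fin (N + 1))) := by
    intro M
    rw [Nat.card_prod, Nat.card_fun, Nat.card_fun, Fintype.card_sum, Fintype.card_fin,
      Fintype.card_fin, Nat.card_fin, Nat.card_fin, pow_add _ (m + 1) (N + 1)]
    push_cast
    rfl
  -- the good vectors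
  obtain ⟨S, hS⟩ : ∃ S : Set (Fin (m + 1) ⊕ Fin (N + 1) → R),
      S = {y | Good k N (poly k (y ∘ Sum.inl)) (poly k (y ∘ Sum.inr))} := ⟨_, rfl⟩
  have hSmem : ∀ y : Pairs m N R, toVec y ∈ S ↔ Good k N (poly k y.1) (poly k y.2) := by
    intro y
    rw [hS]
    rfl
  have key : ∀ η : ℝ, 0 < η → ∃ M : Ideal R, Finite (R ⧸ M) ∧
      (1 - η) * (Nat.card (R ⧸ M) : ℝ) ^ (Fintype.card (Fin (m + 1) ⊕ Fin (N + 1))) ≤
        (({x : Fin (m + 1) ⊕ Fin (N + 1) → R ⧸ M | ∀ y : Fin (m + 1) ⊕ Fin (N + 1) → R,
          (∀ j, Ideal.Quotient.mk M (y j) = x j) → y ∈ S}).ncard : ℝ) := by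
    intro η hη
    obtain ⟨M, hM, hd⟩ := Pool.Agent.X243.Gen.densOne R hR h2 (m := m) (by omega : 3 ≤ N) η hη
    have := hM
    refine ⟨M, hM, hd.trans ?_⟩
    have h3 : ∀ S T : Set (Fin (m + 1) ⊕ Fin (N + 1) → R ⧸ M), S ⊆ T →
        ((S.ncard : ℕ) : ℝ) ≤ ((T.ncard : ℕ) : ℝ) := fun S T h => by
      exact_mod_cast Set.ncard_le_ncard h (Set.toFinite _)
    apply h3
    intro x hx y hy
    rw [hS]
    refine good_of h2 hmN hN (B := 2 * N + 2) (fun s => ?_)
    obtain ⟨p, hp, hp'⟩ := hx s
    exact ⟨p, hp, hp' y hy⟩
  constructor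
  · intro η hη
    obtain ⟨M, hM, hd⟩ := key η hη
    have := hM
    refine ⟨M, hM, ?_⟩
    rw [hcard]
    refine hd.trans ?_
    rw [← Set.ncard_image_of_injective _ (toVec_inj (R := R ⧸ M) (m := m) (N := N))]
    have h3 : ∀ S T : Set (Fin (m + 1) ⊕ Fin (N + 1) → R ⧸ M), S ⊆ T →
        ((S.ncard : ℕ) : ℝ) ≤ ((T.ncard : ℕ) : ℝ) := fun S T h => by
      exact_mod_cast Set.ncard_le_ncard h (Set.toFinite _)
    apply h3
    intro x hx
    obtain ⟨z, rfl⟩ := toVec_surj x
    refine ⟨z, fun y hy => ?_, rfl⟩
    rw [← hSmem]
    exact hx _ ((inClass_iff y z).1 hy)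
  · intro B hB heq
    have hinj : Function.Injective (toVec (R := R) (m := m) (N := N)) := toVec_inj
    have hc : ∀ (i : ℕ) (P : (Fin (m + 1) ⊕ Fin (N + 1) → R) → Prop) [DecidablePred P]
        (Q : Pairs m N R → Prop) [DecidablePred Q], (∀ y, P (toVec y) ↔ Q y) →
        (((B i).map ⟨toVec, hinj⟩).filter P).card = ((B i).filter Q).card := by
      intro i P _ Q _ hPQ
      rw [Finset.filter_map, Finset.card_map]
      congr 1
      ext y
      rw [Finset.mem_filter, Finset.mem_filter]
      exact and_congr_right fun _ => hPQ y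
    have hlim := Pool.Agent.X243.Gen.tendsto_of_dens S key (fun i => (B i).map ⟨toVec, hinj⟩)
      (fun i => (hB i).map) (by
        intro M hM x
        obtain ⟨z, rfl⟩ := toVec_surj x
        have h1 := heq M hM z
        rw [hcard] at h1
        refine h1.congr fun i => ?_
        rw [Finset.card_map, hc i _ (fun y => InClass y z) (fun y => (inClass_iff y z).symm)])
    refine hlim.congr fun i => ?_
    rw [Finset.card_map, hc i _ (fun y => Good k N (poly k y.1) (poly k y.2)) hSmem]

end Pool.Agent.Results.MP_1bdb59_nt.CompleteTwoDescent
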