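import Pool.Agent.X261.TS.Res

/-!
The Selmer group conjecture at `p` for the Jacobians of the twists of `y ^ q = f(x) - t` over `k(t)`
by products of inert primes. The definitions of the Jacobian `J`, of its Galois cohomology and of the
Tate-Shafarevich group are in `Pool.Agent.Y160.SL.Jac`.
-/

set_option autoImplicit false

open Polynomial IsDedekindDomain
open scoped Classical

namespace Pool.Agent.Results.MP_1bdb59_nt.InertTwists

open Pool.Agent.TH115.GD (Sep Comp)
open Pool.Agent.Y160.SL (Jac IsCoc IsCobOf LocTriv ShaTriv)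

section defs

variable {k : Type} [Field k]

/-- The polynomial `D ^ n (f(x / D) - t)` in `x` over `K = k(t)`, where `n` is the degree of `f`. The
curve `y ^ q = D ^ n (f(x / D) - t)` is the twist of the curve `y ^ q = f(x) - t` by `D ^ n`. For `q = 2`
and odd `n` it is isomorphic to `D(t) y ^ 2 = f(x) - t`. -/
noncomputable def twist (K : Type) [Field K] [Algebra k[X] K] (f D : k[X]) : K[X] :=
  ((f.map C - C X : k[X][X]).scaleRoots D).map (algebraMap k[X] K)

/-- All the prime factors `P(t)` of `D` are inert: `P(f(x))` is irreducible over `k`. -/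
def IsInert (f D : k[X]) : Prop :=
  D ≠ 0 ∧ ∀ P : k[X], Irreducible P → P ∣ D → Irreducible (P.comp f)

/-- The Tate module `T_p` of the Tate-Shafarevich group of the Jacobian of `y ^ q = F(x)` over the field
of fractions `K` of `A` is zero, even with respect to the maximal ideals of `A` only: let `c n` be
continuous cocycles of `Gal(Sep K / K)` which are trivial over the completions of `K` at all the maximal
ideals, such that `c 0` is a coboundary and `p c (n + 1)` is cohomologous to `c n`. Then all `c n` are
coboundaries. -/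
def TateModuleTrivial (p q : ℕ) (A : Type) {K : Type} [CommRing A] [IsDedekindDomain A] [Field K]
    [Algebra A K] [IsFractionRing A K] (F : K[X]) : Prop :=
  ∀ c : ℕ → (Sep K ≃ₐ[K] Sep K) → Jac q F (Sep K), (∀ n, IsCoc q F (c n)) →
    (∀ (n : ℕ) (v : HeightOneSpectrum A), LocTriv q F (Comp A K v) (Sep (Comp A K v)) (c n)) →
    (∃ P : Jac q F (Sep K), IsCobOf q F (c 0) P) →
    (∀ n, ∃ P : Jac q F (Sep K), IsCobOf q F (fun σ => p • c (n + 1) σ - c n σ) P) →
    ∀ n, ∃ P : Jac q F (Sep K), IsCobOf q F (c n) P

/-- The conclusions for the Jacobian `J` of `y ^ q = F(x)` over `K = k(t)`: the `p`-primary part of its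
Tate-Shafarevich group is zero, its Tate module is zero, and `J(K) = p ^ n J(K)` for all `n`. -/
structure Conclusions (p q : ℕ) (k : Type) {K : Type} [Field k] [Field K] [Algebra k[X] K]
    [IsFractionRing k[X] K] (F : K[X]) : Prop where
  sha : ShaTriv p q k[X] F
  tate : TateModuleTrivial p q k[X] F
  divisible : ∀ (n : ℕ) (x : Jac q F K), ∃ y : Jac q F K, x = p ^ n • y

end defs

section proofs

variable {p q : ℕ} {A K : Type} [CommRing A] [IsDedekindDomain A] [Field K] [Algebra A K]
  [IsFractionRing A K] {F : K[X]}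

theorem cob_pow {c : ℕ → (Sep K ≃ₐ[K] Sep K) → Jac q F (Sep K)}
    (h0 : ∃ P : Jac q F (Sep K), IsCobOf q F (c 0) P)
    (h : ∀ n, ∃ P : Jac q F (Sep K), IsCobOf q F (fun σ => p • c (n + 1) σ - c n σ) P) (n : ℕ) :
    ∃ P : Jac q F (Sep K), IsCobOf q F (fun σ => p ^ n • c n σ) P := by
  induction n with
  | zero =>
    obtain ⟨P, hP⟩ := h0
    refine ⟨P, fun σ => ?_⟩
    show p ^ 0 • c 0 σ = _
    rw [pow_zero, one_smul, hP σ]
  | succ n ih =>
    obtain ⟨P, hP⟩ := ih
    obtain ⟨Q, hQ⟩ := h n
    refine ⟨p ^ n • Q + P, fun σ => ?_⟩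
    have h1 : p • c (n + 1) σ = (Pool.Agent.Y160.SL.jm q F (Pool.Agent.TH115.GD.rs K σ) Q - Q) +
        c n σ := by
      rw [← hQ σ]
      show _ = p • c (n + 1) σ - c n σ + c n σ
      abel
    have h2 : p ^ n • c n σ = Pool.Agent.Y160.SL.jm q F (Pool.Agent.TH115.GD.rs K σ) P - P := hP σ
    show p ^ (n + 1) • c (n + 1) σ = _
    rw [pow_succ, mul_smul, h1, smul_add, h2, smul_sub, map_add, map_nsmul]
    abel

theorem tate_of_sha (h : ShaTriv p q A F) : TateModuleTrivial p q A F := by
  intro c hc hv h0 hs n
  exact h (c n) (hc n) ⟨n, cob_pow h0 hs n⟩ (hv n)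

end proofs

/-- **The Selmer group conjecture at `p` for twists by products of inert primes.**

Let `p` be a prime number, `q = p ^ (s + 1)`, and `k` any field of characteristic different from `p`
which contains the `q`-th roots of unity; for `q = 2` this is any field of characteristic different
from two. Let `f` be a monic polynomial over `k` of degree `n` prime to `p`, with `f' ≠ 0`, and
`D ≠ 0` a polynomial such that `P(f(x))` is irreducible for every prime factor `P` of `D`. Let `J` be
the Jacobian over `K = k(t)` of the twist `y ^ q = D ^ n (f(x / D) - t)` of `y ^ q = f(x) - t`. Then every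
class of `p`-power order in `H ^ 1(K, J)` which is trivial over the completions at all closed points of
the affine line is zero, `T_p` of the Tate-Shafarevich group is zero, and `J(K) = p ^ n J(K)` for all
`n`; in particular `J(K)` is a finite group of order prime to `p`, if it is finitely generated.

The second part is the case `D = ∏ (t - c)`, for a finite set of elements `c` of `k` such that
`f(x) - c` is irreducible. -/
theorem result (p s : ℕ) (hp : p.Prime) (k K : Type) [Field k] [Field K] [Algebra k[X] K]
    [IsFractionRing k[X] K] (ζ : k) (hζ : IsPrimitiveRoot ζ (p ^ (s + 1))) (f : k[X])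
    (hf : f.Monic) (hn : p.Coprime f.natDegree) (hf' : derivative f ≠ 0) :
    (∀ D : k[X], IsInert f D → Conclusions p (p ^ (s + 1)) k (twist K f D)) ∧
    ∀ S : Finset k, (∀ c ∈ S, Irreducible (f - C c)) →
      Conclusions p (p ^ (s + 1)) k (twist K f (∏ c ∈ S, (X - C c))) := by
  have key : ∀ D : k[X], IsInert f D → Conclusions p (p ^ (s + 1)) k (twist K f D) := by
    intro D hD
    obtain ⟨h1, h2⟩ := Pool.Agent.X261.TS.line_res (K := K) hp hζ hf hn hf' hD.1 hD.2
    exact ⟨h1, tate_of_sha h1, h2⟩
  refine ⟨key, fun S hS => key _ ⟨?_, fun P hP hd => ?_⟩⟩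
  · exact Finset.prod_ne_zero_iff.2 fun c _ => X_sub_C_ne_zero c
  · exact Pool.Agent.X261.TS.prod_inert hS hP hd

end Pool.Agent.Results.MP_1bdb59_nt.InertTwists
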