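import Pool.Agent.H313.GE.Rep

/-!
# One specialisation decides the Selmer group conjecture in all extensions of `ℓ`-power degree

Let `𝔽` be a finitely generated field of characteristic `0` or at least `5`, for instance a number field, `C` a
curve over `𝔽` with function field `𝕂`, and `E` an elliptic curve over `𝕂`, with the places of bad reduction
`T₁`. Let `ℓ` be a prime and `T₂` a finite set of places of `𝕂`. Let `s` be a closed point, with finite residue
field `k` of characteristic prime to `6 ℓ`, of a model of `𝔽` over which `C`, `E` and `T = T₁ ∪ T₂` have good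
reduction (`C` is smooth, `T` is étale, and the reduction of `E` outside `T₁` is good and tame at `T₁`). Let `K`
be the function field of the reduction `C_s`, and `B` the set of the places of `K` in the reduction of
`T₂`.

Let `𝕃` be a Galois extension of `ℓ`-power degree of `𝕂 𝔽̄` unramified outside `T₂`; it is of the form `𝕃₁ 𝔽̄` for a
finite extension `𝔽₁` of `𝔽` and a Galois extension `𝕃₁` of `𝕂 𝔽₁`, the function field of a curve `C'` over
`𝔽₁`. By Grothendieck's specialisation theorem for the tame fundamental group `C'` has good reduction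
at a point over `s`, if `𝔽₁` is large enough, with residue field `k'`, and the function field `L` of the
reduction is a Galois extension of `K` of `ℓ`-power degree unramified outside `B`: this is `IsExt`.

Let `λ` be a prime different from the characteristic of `𝔽`, `F` an algebraic closure of the field of `λ`-adic
numbers and `V = H^1(C'_𝔽̄, j_* R^1 f_* F)`, with the action `ρ` of `G = Gal(𝔽̄ / 𝔽₁)`. Let `χ` be the inverse of the
cyclotomic character, and `g` in `G` the geometric Frobenius element at the point over `s` (`λ` different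
from the characteristic of `k`; the spaces considered are for the other `λ` replaced by an auxiliary
one): so `χ(g)` is the number of elements of `k'`, and `det (1 - T g)` on `V` is the `L`-function
`R = L(T, E_s / L)`. For a subgroup `H` of finite index of `G`, with the finite extension `𝔽₂` of `𝔽₁`, the
group `Sel(E / 𝕃₁ 𝔽₂, ℤ_λ) ⊗ F` is a subspace of `V(1)^H` (`chiSub`: the vectors on which all `h` in `H` act
by `χ(h)`), since `H^0(C'_𝔽̄, j_* R^1 f_* F) = 0` for nonconstant `E`.

So if these spaces are zero the group `Sel(E / 𝕃₁ 𝔽₂, ℤ_λ)` is finite, `T_λ Sha = 0`, the map of the Selmer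
group conjecture is an isomorphism, and `E(𝕃₁ 𝔽₂)` is finite. The theorem gives this for ALL `𝕃` at once
from one condition on the curve `E_s` over the function field `K` modulo the prime `ℓ` of the degrees,
where `s` is one single point.
-/

set_option autoImplicit false
set_option linter.all false
set_option maxHeartbeats 4000000

open Polynomial FF Module Pool.Agent.W343.BSD Pool.Agent.W309.RF Pool.Agent.Y701.QG
open Pool.Agent.H313.GE Pool.Agent.H313.GE.Bd

namespace Pool.Agent.Results.MP_1bdb59_nt.OneSpecialization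

/-- The places of `B` are places of additive reduction, or places of degree `d` of good reduction with
trace of Frobenius modulo `ℓ` in `W`. -/
def InClasses {k K : Type} [Field k] [Field K] [Algebra k K] (ℓ : ℕ) (B : Finset (Place k K))
    (a b : K) (d : ℕ) (W : Finset (ZMod ℓ)) : Prop :=
  ∀ v ∈ B, (v.ord (minDisc v a b) ≠ 0 ∧ S.trace v a b = 0) ∨
    (v.ord (minDisc v a b) = 0 ∧ S.deg v = d ∧ ((S.trace v a b : ℤ) : ZMod ℓ) ∈ W)

/-- For all Galois extensions `L` of `K` of `ℓ`-power degree, unramified outside `B`, with any field of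
constants `k'`, such that `L(T, E/L) = R` is a polynomial, and all representations `V` of a group `G` over
an algebraically closed field of characteristic zero with a character `χ` and an element `g` such that
`χ(g) = |k'|` and `det (1 - T g) = R` on `V`: for all subgroups `H` of finite index of `G` the space of the
vectors on which `H` acts by `χ` has at most the dimension `[L : K] N / [k' : k]`. -/
def RepBound (k : Type) {K : Type} [Field k] [Field K] [Algebra k K] (ℓ : ℕ)
    (B : Finset (Place k K)) (a b : K) (N : ℕ) : Prop :=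
  ∀ (k' L : Type) [Field k'] [Finite k'] [Field L] [Algebra k' L] [Algebra k k'] [Algebra k L]
    [Algebra K L] [IsScalarTower k K L] [IsScalarTower k k' L], IsExt k K k' L ℓ B →
    ∀ R : ℤ[X], S.Lfun k' (algebraMap K L a) (algebraMap K L b) = (R : PowerSeries ℤ) →
      ∀ (F V G : Type) [Field F] [CharZero F] [IsAlgClosed F] [AddCommGroup V] [Module F V]
        [FiniteDimensional F V] [Group G] (ρ : G →* (V →ₗ[F] V)) (χ : G →* F) (g : G),
        χ g = (Nat.card k' : F) →
        R.map (Int.castRingHom F) = (((ρ g).charpoly).roots.map fun x => 1 - C x * X).prod →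
        ∀ H : Subgroup G, H.index ≠ 0 →
          finrank k k' * finrank F (chiSub ρ χ H) ≤ finrank K L * N

theorem repBound {k K : Type} [Field k] [Finite k] [Field K] [Algebra k K]
    (hK : IsCurveField k K) {ℓ : ℕ} [hℓ : Fact ℓ.Prime] {B : Finset (Place k K)} {a b : K}
    (hΔ : 4 * a ^ 3 + 27 * b ^ 2 ≠ 0) {N : ℕ} (h : Bound k ℓ B a b N) : RepBound k ℓ B a b N := by
  intro k' L _ _ _ _ _ _ _ _ _ hext R hR F V G _ _ _ _ _ _ _ ρ χ g hχ hdet H hH
  have h1 := (h k' L hext R hR).1
  have iK : FF.IsFF k K := ⟨hK.essFiniteType, hK.trdeg_eq_one⟩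
  obtain ⟨s, hs⟩ := hext.power
  have i1 : FiniteDimensional K L := Module.finite_of_finrank_pos (by
    rw [hs]; exact pow_pos hℓ.out.pos s)
  have i3 : FF.IsFF k' L := ⟨hext.curve.essFiniteType, hext.curve.trdeg_eq_one⟩
  have hΔL : 4 * (algebraMap K L a) ^ 3 + 27 * (algebraMap K L b) ^ 2 ≠ 0 := by
    have e1 : 4 * algebraMap K L a ^ 3 + 27 * algebraMap K L b ^ 2 =
        algebraMap K L (4 * a ^ 3 + 27 * b ^ 2) := by
      rw [map_add, map_mul, map_mul, map_pow, map_pow, map_ofNat, map_ofNat]
    rw [e1]; exact (_root_.map_ne_zero _).2 hΔ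
  have hR' := hR
  rw [S.lfun_eq hΔL] at hR'
  have hR0 := lfun_coeff_zero (k := k') _ _ hR'
  have h2 := finrank_chiSub_le ρ χ H hH g (Q := Nat.card k') Nat.card_pos.ne' hχ hR0 hdet
  exact (Nat.mul_le_mul_left _ h2).trans h1

/-- Let `ℓ` be a prime, `k` a finite field with `q` elements, of characteristic at least `5` and different
from `ℓ`, `B` a finite set of places of the function field `K` with field of constants `k`, and `E` an elliptic
curve over `K`. In all parts the conclusion is for ALL `L` as above and all representations `V` of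
all groups `G` with `det (1 - T g) = L(T, E/L)` for one element `g` with `χ(g) = |k'|`.

(1) Let `L(T, E/K) V(T) = U(T)` with `V(0) = 1`. If modulo `ℓ` the product of `U` with the Euler factors of `E` at
the places of `B` is `∏_{N ∈ t} Φ_N(q T)` times a polynomial which is divisible by no `Φ_m(q T)` with `m` prime
to `ℓ`, then `[k' : k] dim V(1)^H ≤ [L : K] ∑_{N ∈ t} φ(N)` for all subgroups `H` of finite index of `G`.

(2) Let `W` be a set of residue classes modulo `ℓ` which `Avoids` the traces of the roots of unity (there are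
such `W` omitting only one class for each divisor of `ℓ - 1` or of `ℓ + 1`). The Euler factors are harmless
if the places of `B` are places of additive reduction and places of degree `d` of good reduction with
trace in `W` modulo `ℓ`, where `ℓ` divides `q ^ d - 1`.

(3) For the rational elliptic surfaces `y ^ 2 = f(x) + 2 g(x) t + h(x) t ^ 2`, `f`, `g`, `h` of degree at most
three, this holds with the sum of the degrees of the monic irreducible factors `P` of `g ^ 2 - f h`
with `ε_P ≠ 0`.

(4) Let `E : y ^ 2 = x ^ 3 + α x + β + t` over `k(t)`, where `ℓ` divides `q - 1`. Then `V(1)^H = 0` for all `L`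
unramified outside `t = ∞` and the points `t = τ`, where `τ` is in a finite subset `T` of `k` such that the
curve `y ^ 2 = x ^ 3 + α x + β + τ` is nonsingular and `q` minus the number of its affine points is in `W`
modulo `ℓ`, for all `τ` in `T`.

So for example, for `α`, `β` and a finite set `T` in a number field `𝔽` with ONE prime of good reduction as
above (it does not divide `α`, and the elements of `T` are different modulo this prime) of norm `q` congruent to
`1` modulo `ℓ`, such that the traces of the reductions of the curves `y ^ 2 = x ^ 3 + α x + β + τ` are in `W`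
modulo `ℓ`: for ALL extensions `𝕃` of `𝔽̄(t)` with a group of
`ℓ`-power order, unramified outside `T` and `∞`, and all fields of definition `𝔽₂`, the group
`E(𝕃₁ 𝔽₂)` is finite, and the Selmer group conjecture holds for `E` over `𝕃₁ 𝔽₂` and all primes `λ`. -/
theorem result (ℓ : ℕ) [Fact ℓ.Prime] :
    (∃ W : Finset (ZMod ℓ), Avoids ℓ W ∧
      ℓ ≤ W.card + ((ℓ - 1).divisors ∪ (ℓ + 1).divisors).card) ∧
    (∀ (k K : Type) [Field k] [Finite k] [Field K] [Algebra k K], IsCurveField k K →
      (6 : k) ≠ 0 → (ℓ : k) ≠ 0 → ∀ a b : K, 4 * a ^ 3 + 27 * b ^ 2 ≠ 0 →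
      ∀ (B : Finset (Place k K)) (U V : ℤ[X]), V.coeff 0 = 1 →
        S.Lfun k a b * (V : PowerSeries ℤ) = (U : PowerSeries ℤ) →
        ∀ (t : Multiset ℕ), (∀ N ∈ t, 0 < N) →
          (∀ H : (ZMod ℓ)[X], (U * ∏ v ∈ B, S.locFactor v a b).map (Int.castRingHom (ZMod ℓ)) =
              cprod (ZMod ℓ) (Nat.card k) t * H → NoCyc ℓ (Nat.card k) H →
            RepBound k ℓ B a b (t.map Nat.totient).sum) ∧
          ((∃ z : ZMod ℓ, U.map (Int.castRingHom (ZMod ℓ)) =
              cprod (ZMod ℓ) (Nat.card k) t * C z) →
            ∀ W : Finset (ZMod ℓ), Avoids ℓ W → ∀ d : ℕ, (ℓ : ℤ) ∣ (Nat.card k : ℤ) ^ d - 1 →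
              InClasses ℓ B a b d W → RepBound k ℓ B a b (t.map Nat.totient).sum)) ∧
    ∀ W : Finset (ZMod ℓ), Avoids ℓ W →
    (∀ (k : Type) [Field k] [Finite k], (6 : k) ≠ 0 → (ℓ : k) ≠ 0 → ∀ f g h : k[X], Good f g h →
      ∀ S₀ R₀ : Finset k[X], IsFactors f g h S₀ R₀ → ∀ (B : Finset (Place k (RatFunc k))) (d : ℕ),
        (ℓ : ℤ) ∣ (Nat.card k : ℤ) ^ d - 1 → InClasses ℓ B (A (PA f g h)) (A (PB f g h)) d W →
        RepBound k ℓ B (A (PA f g h)) (A (PB f g h))
          (∑ P ∈ S₀, if eps f h P = 0 then 0 else P.natDegree)) ∧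
    ∀ (k : Type) [Field k] [Finite k], (6 : k) ≠ 0 → (ℓ : k) ≠ 0 → (ℓ : ℤ) ∣ (Nat.card k : ℤ) - 1 →
      ∀ (α β : k) (T : Finset k), (∀ τ ∈ T, 4 * α ^ 3 + 27 * (β + τ) ^ 2 ≠ 0 ∧
        ((((Nat.card k : ℤ) - Nat.card {P : k × k // P.2 ^ 2 = P.1 ^ 3 + α * P.1 + (β + τ)} : ℤ)) :
          ZMod ℓ) ∈ W) →
      ∀ B : Finset (Place k (RatFunc k)),
        (∀ v ∈ B, v.ord RatFunc.X < 0 ∨ ∃ τ ∈ T, v.ord (A (X - C τ)) ≠ 0) →
        RepBound k ℓ B (A (C α)) (A (C β + X)) 0 := by
  classical
  refine ⟨exists_avoids ℓ, ?_, fun W hW => ⟨?_, ?_⟩⟩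
  · intro k K _ _ _ _ hK h6 hlk a b hΔ B U V hV hP t ht
    have iK : FF.IsFF k K := ⟨hK.essFiniteType, hK.trdeg_eq_one⟩
    exact ⟨fun H hf hH => repBound hK hΔ (bound_of hK h6 hlk hΔ B hV hP ht hf hH),
      fun hz W hW d hd hB => repBound hK hΔ
        (bound_nc hK h6 hlk hΔ B hV hP ht hz (avoid_places hlk B hd hW hB))⟩
  · intro k _ _ h6 hlk f g h hG S₀ R₀ hSR B d hd hB
    exact repBound ⟨FF.IsFF.ess, FF.IsFF.trdeg, const_rat⟩ hG.hΔ
      (bound_family h6 hlk hG hSR B (avoid_places hlk B hd hW hB))
  · intro k _ _ h6 hlk hq α β T hT B hB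
    have hΔ : 4 * (A (C α) : RatFunc k) ^ 3 + 27 * A (C β + X) ^ 2 ≠ 0 := by
      rw [A_disc]
      exact A_ne (disc_ex h6 α β)
    refine repBound ⟨FF.IsFF.ess, FF.IsFF.trdeg, const_rat⟩ hΔ (bound_ex h6 hlk α β B ?_)
    refine avoid_places hlk B (d := 1) (by rw [pow_one]; exact hq) hW ?_
    intro v hv
    rcases hB v hv with h1 | ⟨τ, hτ, h1⟩
    · have hinf : v = infty k := by
        by_contra hne
        have := fin_of_ne hne
        omega
      rw [hinf]
      exact Or.inl (tame_inf h6 α β)
    · rcases tame_tau h6 (hT τ hτ).1 h1 with h3 | ⟨h3, h4, h5⟩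
      · exact Or.inl h3
      · refine Or.inr ⟨h3, h4, ?_⟩
        rw [h5]
        exact (hT τ hτ).2

end Pool.Agent.Results.MP_1bdb59_nt.OneSpecialization
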